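import Pool.Agent.Helper8.SE.Sheet

/-! Row SEP (MP_3a8adc_an): a normed space with separable dual is separable. -/

open scoped ContDiff
open Set Filter Topology

namespace Pool.Agent.Helper8.SE

theorem stSEP.{u} : ST_SEP.{u} := by
  intro X _ _ hs
  obtain ⟨g, hg⟩ := TopologicalSpace.exists_dense_seq (StrongDual ℝ X)
  have hx : ∀ n, ∃ x : X, ‖x‖ ≤ 1 ∧ ‖g n‖ / 2 ≤ ‖g n x‖ := by
    intro n
    by_cases h0 : ‖g n‖ = 0
    · exact ⟨0, by simp, by simp [h0]⟩
    · have h1 : ‖g n‖ / 2 < ‖g n‖ := by
        have := lt_of_le_of_ne (norm_nonneg (g n)) (Ne.symm h0)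
        linarith
      obtain ⟨x, h2, h3⟩ := ContinuousLinearMap.exists_lt_apply_of_lt_opNorm (g n) h1
      exact ⟨x, h2.le, h3.le⟩
  choose x hx1 hx2 using hx
  have htop : (Submodule.span ℝ (Set.range x)).topologicalClosure = ⊤ := by
    by_contra hne
    obtain ⟨y, -, hy⟩ := SetLike.exists_of_lt (lt_top_iff_ne_top.2 hne)
    obtain ⟨f, u, h1, h2⟩ := geometric_hahn_banach_point_closed
      (t := ((Submodule.span ℝ (Set.range x)).topologicalClosure : Set X))
      (Submodule.convex _) (Submodule.isClosed_topologicalClosure _) hy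
    have hu : u < 0 := by
      have := h2 0 (Submodule.zero_mem _)
      simpa using this
    have hf0 : ∀ n, f (x n) = 0 := by
      intro n
      by_contra hne0
      have hmem : (u / f (x n)) • x n ∈ (Submodule.span ℝ (Set.range x)).topologicalClosure :=
        Submodule.smul_mem _ _ (Submodule.le_topologicalClosure _
          (Submodule.subset_span ⟨n, rfl⟩))
      have := h2 _ hmem
      rw [map_smul, smul_eq_mul, div_mul_cancel₀ _ hne0] at this
      exact lt_irrefl _ this
    have hfn : 0 < ‖f‖ := by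
      rw [norm_pos_iff]
      rintro rfl
      simp at h1
      linarith
    obtain ⟨n, hn⟩ := Metric.denseRange_iff.1 hg f (‖f‖ / 4) (by positivity)
    rw [dist_eq_norm] at hn
    have h3 : ‖g n (x n)‖ ≤ ‖f - g n‖ := by
      have h4 : g n (x n) = -((f - g n) (x n)) := by
        simp [hf0 n]
      rw [h4, norm_neg]
      calc ‖(f - g n) (x n)‖ ≤ ‖f - g n‖ * ‖x n‖ := ContinuousLinearMap.le_opNorm _ _
        _ ≤ ‖f - g n‖ * 1 := mul_le_mul_of_nonneg_left (hx1 n) (norm_nonneg _)
        _ = ‖f - g n‖ := mul_one _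
    have h5 : ‖f‖ ≤ ‖f - g n‖ + ‖g n‖ := by
      calc ‖f‖ = ‖(f - g n) + g n‖ := by simp
        _ ≤ _ := norm_add_le _ _
    have h6 := hx2 n
    linarith
  have hsep : TopologicalSpace.IsSeparable (Set.univ : Set X) := by
    have h1 : TopologicalSpace.IsSeparable
        ((Submodule.span ℝ (Set.range x) : Submodule ℝ X) : Set X) :=
      (Set.countable_range x).isSeparable.span
    have h2 := h1.closure
    rw [← Submodule.topologicalClosure_coe, htop] at h2
    exact h2
  exact TopologicalSpace.isSeparable_univ_iff.1 hsep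

end Pool.Agent.Helper8.SE
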